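import Pool.Agent.R688.FC.Cx

/-! Filter regularity from uniform annihilators. -/

namespace Pool.Agent.R688.FC
open Finset Pool.Agent.R688.AN.Cech

universe v
variable {R : Type v} [CommRing R]

/-- every chain of primes above `𝔞` has length at most `t`. -/
def HB (𝔞 : Ideal R) (t : ℕ) : Prop :=
  ∀ l : LTSeries (PrimeSpectrum R), 𝔞 ≤ l.head.asIdeal → l.length ≤ t

section loc
variable [IsLocalRing R]


theorem HB_step {𝔞 : Ideal R} {t : ℕ} (h : HB 𝔞 (t + 1)) {y : R}
    (hy : ∀ Q ∈ 𝔞.minimalPrimes, Q ≠ (IsLocalRing.maximalIdeal R) → y ∉ Q) : HB (𝔞 ⊔ Ideal.span {y}) t := by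
  intro l hl
  obtain ⟨Q, hQ, hQl⟩ := Ideal.exists_minimalPrimes_le (J := l.head.asIdeal) (le_sup_left.trans hl)
  have hyl : y ∈ l.head.asIdeal := hl (Ideal.mem_sup_right (Ideal.mem_span_singleton_self y))
  by_cases hQm : Q = (IsLocalRing.maximalIdeal R)
  · have h1 : l.head.asIdeal = (IsLocalRing.maximalIdeal R) :=
      le_antisymm (IsLocalRing.le_maximalIdeal l.head.isPrime.ne_top) (hQm ▸ hQl)
    by_contra hlt
    have hpos : l.length ≠ 0 := by omega
    have h2 : l.head < l.last := l.strictMono (by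
      rw [Fin.lt_def]
      show 0 < l.length
      omega)
    have h3 : l.head.asIdeal < l.last.asIdeal := h2
    rw [h1] at h3
    exact h3.not_ge (IsLocalRing.le_maximalIdeal l.last.isPrime.ne_top)
  · have hlt : (⟨Q, hQ.1.1⟩ : PrimeSpectrum R) < l.head := by
      refine lt_of_le_of_ne hQl ?_
      intro e
      apply hy Q hQ hQm
      have : Q = l.head.asIdeal := congrArg PrimeSpectrum.asIdeal e
      rw [this]
      exact hyl
    have := h (l.cons ⟨Q, hQ.1.1⟩ hlt) hQ.1.2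
    have h4 : (l.cons ⟨Q, hQ.1.1⟩ hlt).length = l.length + 1 := by
      simp
    omega

theorem HB_zero {𝔞 : Ideal R} (h : HB 𝔞 0) {x : R} (hx : x ∈ (IsLocalRing.maximalIdeal R)) : ∃ N, x ^ N ∈ 𝔞 := by
  have : x ∈ 𝔞.radical := by
    rw [Ideal.radical_eq_sInf, Ideal.mem_sInf]
    rintro Q ⟨hQ, hQp⟩
    by_contra hxQ
    have hlt : (⟨Q, hQp⟩ : PrimeSpectrum R) < IsLocalRing.closedPoint R := by
      refine lt_of_le_of_ne (IsLocalRing.le_maximalIdeal hQp.ne_top) ?_
      intro e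
      apply hxQ
      have : Q = (IsLocalRing.maximalIdeal R) := congrArg PrimeSpectrum.asIdeal e
      rw [this]
      exact hx
    have := h ((RelSeries.singleton _ (IsLocalRing.closedPoint R) :
      LTSeries (PrimeSpectrum R)).cons ⟨Q, hQp⟩ hlt) hQ
    simp at this
  exact this

variable [IsNoetherianRing R]

/-- the elements killed by `m ^ k` modulo `I` -/
def sat (I : Ideal R) (k : ℕ) : Ideal R where
  carrier := {r | ∀ z ∈ (IsLocalRing.maximalIdeal R) ^ k, z * r ∈ I}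
  zero_mem' := fun z _ => by rw [mul_zero]; exact I.zero_mem
  add_mem' := fun {a b} ha hb z hz => by rw [mul_add]; exact I.add_mem (ha z hz) (hb z hz)
  smul_mem' := fun c a ha z hz => by
    rw [smul_eq_mul, mul_left_comm]; exact I.mul_mem_left _ (ha z hz)

omit [IsNoetherianRing R] in
theorem sat_mono (I : Ideal R) : Monotone (sat I) := by
  intro k k' hk r hr z hz
  exact hr z (Ideal.pow_le_pow_right hk hz)

/-- existence of good elements. -/
theorem exists_good {n : ℕ} (f : Fin n → R) (hf : ∀ j, f j ∈ (IsLocalRing.maximalIdeal R)) (I 𝔞 : Ideal R) (a : ℕ) :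
    ∃ y ∈ (IsLocalRing.maximalIdeal R) ^ a, FR f I y ∧ ∀ Q ∈ 𝔞.minimalPrimes, Q ≠ (IsLocalRing.maximalIdeal R) → y ∉ Q := by
  obtain ⟨M, hM⟩ := monotone_stabilizes_iff_noetherian.mpr ‹IsNoetherianRing R›
    ⟨sat I, sat_mono I⟩
  have hM' : sat I M = sat I (M + 1) := hM (M + 1) (Nat.le_succ M)
  have hII : I ≤ sat I M := fun r hr z _ => I.mul_mem_left _ hr
  set S : Set (Ideal R) := associatedPrimes R (R ⧸ sat I M) ∪ {Q ∈ 𝔞.minimalPrimes | Q ≠ (IsLocalRing.maximalIdeal R)} with hS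
  have hfin : S.Finite := (associatedPrimes.finite R (R ⧸ sat I M)).union
    ((Ideal.finite_minimalPrimes_of_isNoetherianRing R 𝔞).subset (Set.sep_subset _ _))
  have hprime : ∀ Q ∈ S, Q.IsPrime := by
    rintro Q (hQ | hQ)
    · exact IsAssociatedPrime.isPrime hQ
    · exact hQ.1.1.1
  have hne : ∀ Q ∈ S, Q ≠ (IsLocalRing.maximalIdeal R) := by
    rintro Q (hQ | hQ)
    · rintro rfl
      obtain ⟨-, x, hx⟩ := (isAssociatedPrime_iff (R := R) (M := R ⧸ sat I M)).mp hQ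
      obtain ⟨u, rfl⟩ := Ideal.Quotient.mk_surjective x
      have h1 : ∀ z ∈ (IsLocalRing.maximalIdeal R), z * u ∈ sat I M := by
        intro z hz
        rw [hx, Submodule.mem_colon_singleton, Submodule.mem_bot, ← Ideal.Quotient.mk_eq_mk,
          ← Submodule.Quotient.mk_smul, Submodule.Quotient.mk_eq_zero] at hz
        exact hz
      have h2 : u ∈ sat I (M + 1) := by
        intro z hz
        rw [pow_succ] at hz
        refine Submodule.mul_induction_on hz ?_ ?_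
        · intro z1 hz1 z2 hz2
          rw [mul_assoc]
          exact h1 z2 hz2 z1 hz1
        · intro z1 z2 h1 h2
          rw [add_mul]
          exact I.add_mem h1 h2
      rw [← hM'] at h2
      have h3 : Ideal.Quotient.mk (sat I M) u = 0 := Ideal.Quotient.eq_zero_iff_mem.mpr h2
      have h4 : (1 : R) ∈ (IsLocalRing.maximalIdeal R) := by
        rw [hx, Submodule.mem_colon_singleton, h3, smul_zero]
        exact Submodule.zero_mem _
      exact (Ideal.ne_top_iff_one _).mp (IsLocalRing.maximalIdeal.isMaximal R).ne_top h4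
    · exact hQ.2
  have hav : ¬ (((IsLocalRing.maximalIdeal R) ^ a : Ideal R) : Set R) ⊆ ⋃ Q ∈ S, (Q : Set R) := by
    intro h
    obtain ⟨Q, hQ, hle⟩ := (Ideal.subset_union_prime_finite hfin (f := id) ⊥ ⊥
      (fun i hi _ _ => hprime i hi)).mp h
    have := hprime Q hQ
    apply hne Q hQ
    exact le_antisymm (IsLocalRing.le_maximalIdeal (hprime Q hQ).ne_top)
      (Ideal.IsPrime.le_of_pow_le (n := a) hle)
  obtain ⟨y, hy, hyS⟩ := Set.not_subset.mp hav
  have hyS' : ∀ Q ∈ S, y ∉ Q := by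
    intro Q hQ h
    exact hyS (Set.mem_iUnion₂_of_mem hQ h)
  refine ⟨y, hy, ?_, fun Q hQ hQm => hyS' Q (Or.inr ⟨hQ, hQm⟩)⟩
  intro r hr j
  have hr' : r ∈ sat I M := by
    by_contra hrn
    have h5 : y ∈ ⋃ P ∈ associatedPrimes R (R ⧸ sat I M), (P : Set R) := by
      rw [biUnion_associatedPrimes_eq_zero_divisors]
      refine ⟨Ideal.Quotient.mk _ r, ?_, ?_⟩
      · intro h
        exact hrn (Ideal.Quotient.eq_zero_iff_mem.mp h)
      · rw [← Ideal.Quotient.mk_eq_mk, ← Submodule.Quotient.mk_smul, Submodule.Quotient.mk_eq_zero]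
        exact hII hr
    obtain ⟨P, hP, hyP⟩ := Set.mem_iUnion₂.mp h5
    exact hyS' P (Or.inl hP) hyP
  exact ⟨M, hr' _ (Ideal.pow_mem_pow (hf j) M)⟩

/-- uniform annihilation by induction -/
theorem lemX {n : ℕ} (f : Fin n → R) (hf : ∀ j, f j ∈ (IsLocalRing.maximalIdeal R)) (t : ℕ) :
    ∀ (I 𝔞 𝔫 : Ideal R) (_ : HB 𝔞 t) (_ : ∀ i ≤ t, Ann f 𝔫 I i) (r : R)
      (_ : ∀ z ∈ 𝔞, z * r ∈ I) (a : ℕ), ∀ z ∈ 𝔫 ^ (2 ^ t), z * r ∈ I ⊔ (IsLocalRing.maximalIdeal R) ^ a := by
  induction t with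
  | zero =>
    intro I 𝔞 𝔫 hHB hAnn r hr a z hz
    rw [pow_zero, pow_one] at hz
    have h1 : c0 f r ∈ Zs f I 0 := by
      apply c0_mem_Zs
      intro j
      obtain ⟨N, hN⟩ := HB_zero hHB (hf j)
      exact ⟨N, hr _ hN⟩
    have h2 := hAnn 0 le_rfl z hz _ h1
    rw [← map_smul, smul_eq_mul, c0_mem_Bs] at h2
    exact Ideal.mem_sup_left h2
  | succ t ih =>
    intro I 𝔞 𝔫 hHB hAnn r hr a z hz
    obtain ⟨y, hy, hyF, hyQ⟩ := exists_good f hf I 𝔞 a
    have h1 := ih (I ⊔ Ideal.span {y}) (𝔞 ⊔ Ideal.span {y}) (𝔫 * 𝔫) (HB_step hHB hyQ)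
      (fun i hi => Ann_step f hyF (hAnn i (by omega)) (hAnn (i + 1) (by omega))) r ?_ a z ?_
    · have h2 : I ⊔ Ideal.span {y} ⊔ (IsLocalRing.maximalIdeal R) ^ a ≤ I ⊔ (IsLocalRing.maximalIdeal R) ^ a := by
        refine sup_le (sup_le le_sup_left ?_) le_sup_right
        rw [Ideal.span_singleton_le_iff_mem]
        exact Ideal.mem_sup_right hy
      exact h2 h1
    · intro w hw
      obtain ⟨w1, hw1, w2, hw2, rfl⟩ := Submodule.mem_sup.mp hw
      obtain ⟨w3, rfl⟩ := Ideal.mem_span_singleton'.mp hw2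
      rw [add_mul]
      refine Ideal.add_mem _ (Ideal.mem_sup_left (hr _ hw1)) (Ideal.mem_sup_right ?_)
      rw [mul_right_comm]
      exact Ideal.mul_mem_left _ _ (Ideal.mem_span_singleton_self y)
    · rw [← pow_two, ← pow_mul, ← pow_succ']
      exact hz

/-- Krull's intersection theorem modulo `I` -/
theorem krull (I : Ideal R) (r : R) (h : ∀ a : ℕ, r ∈ I ⊔ (IsLocalRing.maximalIdeal R) ^ a) : r ∈ I := by
  have h1 : (Ideal.Quotient.mk I r : R ⧸ I) ∈
      (⨅ i : ℕ, (IsLocalRing.maximalIdeal R) ^ i • ⊤ : Submodule R (R ⧸ I)) := by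
    rw [Submodule.mem_iInf]
    intro a
    obtain ⟨u, hu, w, hw, rfl⟩ := Submodule.mem_sup.mp (h a)
    rw [map_add, Ideal.Quotient.eq_zero_iff_mem.mpr hu, zero_add]
    have : (Ideal.Quotient.mk I w : R ⧸ I) = w • (1 : R ⧸ I) := by
      rw [Algebra.smul_def, mul_one]; rfl
    rw [this]
    exact Submodule.smul_mem_smul hw Submodule.mem_top
  rw [Ideal.iInf_pow_smul_eq_bot_of_isLocalRing _ (IsLocalRing.maximalIdeal.isMaximal R).ne_top,
    Submodule.mem_bot] at h1
  exact Ideal.Quotient.eq_zero_iff_mem.mp h1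

theorem FR_of_Ann {n : ℕ} (f : Fin n → R) (hf : ∀ j, f j ∈ (IsLocalRing.maximalIdeal R)) (t : ℕ) (I 𝔫 : Ideal R) (x : R)
    (hAnn : ∀ i ≤ t, Ann f 𝔫 I i) (hHB : ∀ 𝔞 : Ideal R, I ≤ 𝔞 → x ∈ 𝔞 → HB 𝔞 t)
    (hn : ∀ j, ∃ N, f j ^ N ∈ 𝔫) : FR f I x := by
  intro r hr j
  obtain ⟨N, hN⟩ := hn j
  let 𝔞 : Ideal R :=
    { carrier := {z | z * r ∈ I}
      zero_mem' := by rw [Set.mem_ofPred_eq, zero_mul]; exact I.zero_mem
      add_mem' := fun {a b} ha hb => by
        rw [Set.mem_ofPred_eq, add_mul]; exact I.add_mem ha hb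
      smul_mem' := fun c a ha => by
        rw [smul_eq_mul, Set.mem_ofPred_eq, mul_assoc]; exact I.mul_mem_left _ ha }
  have h1 : HB 𝔞 t := hHB 𝔞 (fun z hz => I.mul_mem_right _ hz) hr
  refine ⟨N * 2 ^ t, krull I _ (fun a => ?_)⟩
  refine lemX f hf t I 𝔞 𝔫 h1 hAnn r (fun z hz => hz) a _ ?_
  rw [pow_mul]
  exact Ideal.pow_mem_pow hN _

/-- a bound for chains of primes from Krull's theorem -/
theorem HB_of_sop (𝔞 : Ideal R) (z : Finset R) (hz : ∀ x ∈ z, x ∈ (IsLocalRing.maximalIdeal R))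
    (h : ∀ Q : Ideal R, Q.IsPrime → 𝔞 ≤ Q → (∀ x ∈ z, x ∈ Q) → Q = (IsLocalRing.maximalIdeal R)) : HB 𝔞 z.card := by
  classical
  intro l hl
  by_cases htop : 𝔞 = ⊤
  · exact absurd (le_antisymm le_top (htop ▸ hl)) l.head.isPrime.ne_top
  have : Nontrivial (R ⧸ 𝔞) := Ideal.Quotient.nontrivial_iff.mpr htop
  have hloc : IsLocalRing (R ⧸ 𝔞) :=
    IsLocalRing.of_surjective' (Ideal.Quotient.mk 𝔞) Ideal.Quotient.mk_surjective
  let s : Finset (R ⧸ 𝔞) := z.image (Ideal.Quotient.mk 𝔞)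
  have hs : (s : Set (R ⧸ 𝔞)) ⊆ Ring.jacobson (R ⧸ 𝔞) := by
    intro y hy
    obtain ⟨x, hx, rfl⟩ := Finset.mem_image.mp hy
    rw [SetLike.mem_coe, IsLocalRing.ringJacobson_eq_maximalIdeal]
    have h1 := ((IsLocalRing.local_hom_TFAE (Ideal.Quotient.mk 𝔞)).out 0 4).mp
      (IsLocalHom.of_surjective _ Ideal.Quotient.mk_surjective)
    have h2 : x ∈ (IsLocalRing.maximalIdeal (R ⧸ 𝔞)).comap (Ideal.Quotient.mk 𝔞) := by
      rw [h1]; exact hz x hx
    exact h2
  have hdim := ringKrullDim_le_ringKrullDim_quotient_add_card s hs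
  have h0 : ringKrullDim ((R ⧸ 𝔞) ⧸ Ideal.span (s : Set (R ⧸ 𝔞))) ≤ 0 := by
    have : Ring.KrullDimLE 0 ((R ⧸ 𝔞) ⧸ Ideal.span (s : Set (R ⧸ 𝔞))) := by
      rw [Ring.krullDimLE_zero_iff]
      intro Q hQ
      let φ : R →+* ((R ⧸ 𝔞) ⧸ Ideal.span (s : Set (R ⧸ 𝔞))) :=
        (Ideal.Quotient.mk _).comp (Ideal.Quotient.mk 𝔞)
      have hφ : Function.Surjective φ :=
        Ideal.Quotient.mk_surjective.comp Ideal.Quotient.mk_surjective
      have hQ' : (Q.comap φ) = (IsLocalRing.maximalIdeal R) := by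
        apply h _ (Ideal.comap_isPrime φ Q)
        · intro x hx
          show φ x ∈ Q
          have : φ x = 0 := by
            show Ideal.Quotient.mk _ (Ideal.Quotient.mk 𝔞 x) = 0
            rw [Ideal.Quotient.eq_zero_iff_mem.mpr hx, map_zero]
          rw [this]
          exact Q.zero_mem
        · intro x hx
          show φ x ∈ Q
          have : φ x = 0 := by
            apply Ideal.Quotient.eq_zero_iff_mem.mpr
            exact Ideal.subset_span (Finset.mem_coe.mpr (Finset.mem_image_of_mem _ hx))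
          rw [this]
          exact Q.zero_mem
      have hmax : (Q.comap φ).IsMaximal := by
        rw [hQ']; exact IsLocalRing.maximalIdeal.isMaximal R
      have := Ideal.map_eq_top_or_isMaximal_of_surjective φ hφ hmax
      rw [Ideal.map_comap_of_surjective φ hφ] at this
      exact this.resolve_left hQ.ne_top
    exact (Ring.krullDimLE_iff).mp this
  have hR : ringKrullDim (R ⧸ 𝔞) ≤ (z.card : ℕ) := by
    refine hdim.trans ?_
    have h3 : (s.card : WithBot ℕ∞) ≤ (z.card : WithBot ℕ∞) := by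
      exact_mod_cast Finset.card_image_le
    calc _ ≤ (0 : WithBot ℕ∞) + s.card := add_le_add_left h0 _
      _ ≤ z.card := by rw [zero_add]; exact h3
  rw [ringKrullDim_quotient] at hR
  have hmem : ∀ i, 𝔞 ≤ (l i).asIdeal := by
    intro i
    exact hl.trans (l.monotone (Fin.zero_le i) : l 0 ≤ l i)
  let l' : LTSeries (PrimeSpectrum.zeroLocus (R := R) 𝔞) :=
    { length := l.length
      toFun := fun i => ⟨l i, hmem i⟩
      step := fun i => l.step i }
  have h5 := (Order.LTSeries.length_le_krullDim l').trans hR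
  exact_mod_cast h5

end loc

end Pool.Agent.R688.FC
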