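import Pool.Agent.R688.AN.Cech

/-! The Čech complex modulo an ideal. -/

namespace Pool.Agent.R688.FC
open Finset Pool.Agent.R688.AN.Cech

universe v
variable {R : Type v} [CommRing R] {n : ℕ}

theorem res_res' (f : Fin n → R) {s t u : Finset (Fin n)} (h : s ⊆ t) (h' : t ⊆ u)
    (z : CLoc f s) : res f h' (res f h z) = res f (h.trans h') z := by
  have : ((res f h').comp (res f h)) = res f (h.trans h') := by
    apply IsLocalization.ringHom_ext (Submonoid.powers (∏ j ∈ s, f j))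
    ext r
    simp only [RingHom.comp_apply, res_algebraMap]
  rw [← this]
  rfl

theorem res_congr (f : Fin n → R) (c : Cochain f) {s s' t : Finset (Fin n)} (e : s = s')
    (h : s ⊆ t) (h' : s' ⊆ t) : res f h (c s) = res f h' (c s') := by
  subst e
  rfl

theorem sign_swap {t : Finset (Fin n)} {j k : Fin n} (hj : j ∈ t) (hjk : j < k) :
    #{l ∈ t | l < k} = #{l ∈ t.erase j | l < k} + 1 ∧
      #{l ∈ t | l < j} = #{l ∈ t.erase k | l < j} := by
  constructor
  · have : ({l ∈ t.erase j | l < k} : Finset (Fin n)) = ({l ∈ t | l < k} : Finset (Fin n)).erase j := by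
      ext l
      simp only [mem_filter, mem_erase]
      tauto
    rw [this, Finset.card_erase_add_one]
    simp [hj, hjk]
  · congr 1
    ext l
    simp only [mem_filter, mem_erase]
    constructor
    · rintro ⟨h1, h2⟩
      exact ⟨⟨(h2.trans hjk).ne, h1⟩, h2⟩
    · rintro ⟨⟨_, h1⟩, h2⟩
      exact ⟨h1, h2⟩

theorem dif_dif (f : Fin n → R) (c : Cochain f) : dif f (dif f c) = 0 := by
  funext t
  show difAt f (dif f c) t = 0
  have e1 : difAt f (dif f c) t =
      ∑ p ∈ (t ×ˢ t).filter (fun p => p.1 ≠ p.2),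
        (-1 : CLoc f t) ^ (#{l ∈ t | l < p.1}) * ((-1) ^ (#{l ∈ t.erase p.1 | l < p.2}) *
          res f (((t.erase p.1).erase_subset p.2).trans (t.erase_subset p.1))
            (c ((t.erase p.1).erase p.2))) := by
    unfold difAt
    rw [Finset.sum_filter, Finset.sum_product]
    refine Finset.sum_congr rfl (fun j _ => ?_)
    rw [← Finset.sum_filter]
    have e2 : (t.filter (fun k => j ≠ k)) = t.erase j := by
      ext l
      simp only [mem_filter, mem_erase]
      constructor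
      · rintro ⟨h1, h2⟩
        exact ⟨fun h => h2 h.symm, h1⟩
      · rintro ⟨h1, h2⟩
        exact ⟨h2, fun h => h1 h.symm⟩
    rw [e2]
    show _ * res f _ (∑ k ∈ t.erase j, (-1) ^ (#{l ∈ t.erase j | l < k}) *
      res f ((t.erase j).erase_subset k) (c ((t.erase j).erase k))) = _
    rw [map_sum]
    refine (Finset.mul_sum _ _ _).trans ?_
    refine Finset.sum_congr rfl (fun k _ => ?_)
    rw [map_mul, map_pow, map_neg, map_one, res_res']
  rw [e1]
  have key : ∀ j ∈ t, ∀ k ∈ t, j < k →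
      (-1 : CLoc f t) ^ (#{l ∈ t | l < j}) * ((-1) ^ (#{l ∈ t.erase j | l < k}) *
          res f (((t.erase j).erase_subset k).trans (t.erase_subset j))
            (c ((t.erase j).erase k))) +
      (-1 : CLoc f t) ^ (#{l ∈ t | l < k}) * ((-1) ^ (#{l ∈ t.erase k | l < j}) *
          res f (((t.erase k).erase_subset j).trans (t.erase_subset k))
            (c ((t.erase k).erase j))) = 0 := by
    intro j hj k hk hjk
    obtain ⟨h1, h2⟩ := sign_swap (k := k) hj hjk
    rw [res_congr f c (Finset.erase_right_comm (s := t) (a := k) (b := j)) _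
      (((t.erase j).erase_subset k).trans (t.erase_subset j)), h1, h2]
    ring
  refine Finset.sum_involution (fun p _ => (p.2, p.1)) ?_ ?_ ?_ ?_
  · rintro ⟨j, k⟩ hp
    simp only [mem_filter, mem_product] at hp
    obtain ⟨⟨hj, hk⟩, hne⟩ := hp
    rcases lt_or_gt_of_ne hne with h | h
    · exact key j hj k hk h
    · rw [add_comm]
      exact key k hk j hj h
  · rintro ⟨j, k⟩ hp _ h
    simp only [mem_filter, mem_product] at hp
    exact hp.2 (Prod.ext_iff.mp h).2
  · rintro ⟨j, k⟩ hp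
    simp only [mem_filter, mem_product] at hp ⊢
    exact ⟨⟨hp.1.2, hp.1.1⟩, fun h => hp.2 h.symm⟩
  · rintro ⟨j, k⟩ hp
    rfl

theorem dif_deg (f : Fin n → R) {i : ℕ} {c : Cochain f} (hc : c ∈ deg f i) :
    dif f c ∈ deg f (i + 1) := by
  intro t ht
  show difAt f c t = 0
  unfold difAt
  apply Finset.sum_eq_zero
  intro j hj
  rw [hc, map_zero, mul_zero]
  intro h
  rw [Finset.card_erase_of_mem hj] at h
  have := Finset.card_pos.mpr ⟨j, hj⟩
  omega

/-- cochains with all components in `I R_s` -/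
def IC (f : Fin n → R) (I : Ideal R) : Submodule R (Cochain f) where
  carrier := {c | ∀ s, c s ∈ I.map (algebraMap R (CLoc f s))}
  zero_mem' := fun _ => Ideal.zero_mem _
  add_mem' := fun {a b} ha hb s => by
    rw [Pool.Agent.R688.AN.Cech.add_apply]
    exact Ideal.add_mem _ (ha s) (hb s)
  smul_mem' := fun r a ha s => by
    rw [Pool.Agent.R688.AN.Cech.smul_apply, Algebra.smul_def]
    exact Ideal.mul_mem_left _ _ (ha s)

theorem IC_mono (f : Fin n → R) {I J : Ideal R} (h : I ≤ J) : IC f I ≤ IC f J :=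
  fun _ hc s => Ideal.map_mono h (hc s)

theorem IC_bot (f : Fin n → R) {c : Cochain f} (hc : c ∈ IC f ⊥) : c = 0 := by
  funext s
  have := hc s
  rwa [Ideal.map_bot] at this

theorem res_mem (f : Fin n → R) (I : Ideal R) {s t : Finset (Fin n)} (h : s ⊆ t) {z : CLoc f s}
    (hz : z ∈ I.map (algebraMap R (CLoc f s))) : res f h z ∈ I.map (algebraMap R (CLoc f t)) := by
  have := Ideal.mem_map_of_mem (res f h) hz
  rw [Ideal.map_map] at this
  have e : (res f h).comp (algebraMap R (CLoc f s)) = algebraMap R (CLoc f t) :=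
    RingHom.ext (res_algebraMap f h)
  rwa [e] at this

theorem dif_IC (f : Fin n → R) {I : Ideal R} {c : Cochain f} (hc : c ∈ IC f I) :
    dif f c ∈ IC f I := by
  intro t
  show difAt f c t ∈ _
  unfold difAt
  apply Ideal.sum_mem
  intro j _
  exact Ideal.mul_mem_left _ _ (res_mem f I _ (hc _))

/-- decomposition of cochains modulo `I + (x)`. -/
theorem exists_decomp (f : Fin n → R) (I : Ideal R) (x : R) (i : ℕ) {c : Cochain f}
    (hc : c ∈ IC f (I ⊔ Ideal.span {x})) (hd : c ∈ deg f i) :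
    ∃ b ∈ deg f i, c - x • b ∈ IC f I := by
  have h : ∀ s, ∃ y : CLoc f s, c s - x • y ∈ I.map (algebraMap R (CLoc f s)) ∧
      (s.card ≠ i → y = 0) := by
    intro s
    by_cases hs : s.card = i
    · have := hc s
      rw [Ideal.map_sup, Ideal.map_span, Set.image_singleton, Submodule.mem_sup] at this
      obtain ⟨u, hu, w, hw, e⟩ := this
      obtain ⟨y, rfl⟩ := Ideal.mem_span_singleton'.mp hw
      refine ⟨y, ?_, fun h => absurd hs h⟩
      rw [← e, Algebra.smul_def, mul_comm (algebraMap R (CLoc f s) x), add_sub_cancel_right]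
      exact hu
    · refine ⟨0, ?_, fun _ => rfl⟩
      rw [hd s hs, smul_zero, sub_zero]
      exact Ideal.zero_mem _
  choose b hb hb' using h
  exact ⟨b, hb', hb⟩

/-- `x` is filter regular modulo `I`. -/
def FR (f : Fin n → R) (I : Ideal R) (x : R) : Prop :=
  ∀ r, x * r ∈ I → ∀ j, ∃ N, f j ^ N * r ∈ I

theorem mem_map_iff (f : Fin n → R) (I : Ideal R) (s : Finset (Fin n)) (r : R) :
    algebraMap R (CLoc f s) r ∈ I.map (algebraMap R (CLoc f s)) ↔
      ∃ N, (∏ j ∈ s, f j) ^ N * r ∈ I := by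
  rw [IsLocalization.algebraMap_mem_map_algebraMap_iff (Submonoid.powers (∏ j ∈ s, f j))]
  constructor
  · rintro ⟨_, ⟨N, rfl⟩, h⟩
    exact ⟨N, h⟩
  · rintro ⟨N, h⟩
    exact ⟨_, ⟨N, rfl⟩, h⟩

theorem FR_loc (f : Fin n → R) {I : Ideal R} {x : R} (h : FR f I x) {s : Finset (Fin n)}
    (hs : s.Nonempty) {y : CLoc f s} (hy : x • y ∈ I.map (algebraMap R (CLoc f s))) :
    y ∈ I.map (algebraMap R (CLoc f s)) := by
  obtain ⟨k, r, e⟩ := IsLocalization.Away.surj (∏ j ∈ s, f j) y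
  have hu : IsUnit (algebraMap R (CLoc f s) (∏ j ∈ s, f j) ^ k) :=
    (IsLocalization.Away.algebraMap_isUnit _).pow k
  rw [← Ideal.mul_unit_mem_iff_mem _ hu, e, mem_map_iff]
  have h1 : algebraMap R (CLoc f s) (x * r) ∈ I.map (algebraMap R (CLoc f s)) := by
    rw [map_mul, ← e, ← mul_assoc, ← Algebra.smul_def]
    exact Ideal.mul_mem_right _ _ hy
  rw [mem_map_iff] at h1
  obtain ⟨N, hN⟩ := h1
  obtain ⟨j, hj⟩ := hs
  obtain ⟨M, hM⟩ := h ((∏ j ∈ s, f j) ^ N * r) (by
    rw [show x * ((∏ j ∈ s, f j) ^ N * r) = (∏ j ∈ s, f j) ^ N * (x * r) by ring]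
    exact hN) j
  refine ⟨M + N, ?_⟩
  obtain ⟨g, hg⟩ := Finset.dvd_prod_of_mem f hj
  rw [show (∏ j ∈ s, f j) ^ (M + N) * r = (∏ j ∈ s, f j) ^ M * ((∏ j ∈ s, f j) ^ N * r) by ring]
  nth_rewrite 1 [hg]
  rw [mul_pow, mul_comm (f j ^ M), mul_assoc]
  exact Ideal.mul_mem_left _ _ hM

theorem FR_cochain (f : Fin n → R) {I : Ideal R} {x : R} (h : FR f I x) {i : ℕ} {c : Cochain f}
    (hd : c ∈ deg f (i + 1)) (hc : x • c ∈ IC f I) : c ∈ IC f I := by
  intro s
  by_cases hs : s.Nonempty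
  · exact FR_loc f h hs (hc s)
  · rw [Finset.not_nonempty_iff_eq_empty] at hs
    subst hs
    rw [hd ∅ (by simp)]
    exact Ideal.zero_mem _

/-- cochains of degree `i` which are cocycles modulo `I` -/
noncomputable def Zs (f : Fin n → R) (I : Ideal R) (i : ℕ) : Submodule R (Cochain f) :=
  deg f i ⊓ (IC f I).comap (dif f)

/-- cochains of degree `i` which are coboundaries modulo `I` -/
noncomputable def Bs (f : Fin n → R) (I : Ideal R) : ℕ → Submodule R (Cochain f)
  | 0 => IC f I ⊓ deg f 0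
  | i + 1 => (deg f i).map (dif f) ⊔ (IC f I ⊓ deg f (i + 1))

theorem IC_le_Bs (f : Fin n → R) (I : Ideal R) (i : ℕ) : IC f I ⊓ deg f i ≤ Bs f I i := by
  cases i with
  | zero => exact le_rfl
  | succ i => exact le_sup_right

theorem dif_mem_Bs (f : Fin n → R) (I : Ideal R) {i : ℕ} {c : Cochain f} (hc : c ∈ deg f i) :
    dif f c ∈ Bs f I (i + 1) :=
  Submodule.mem_sup_left ⟨c, hc, rfl⟩

theorem Bs_le_Zs (f : Fin n → R) (I : Ideal R) (i : ℕ) : Bs f I i ≤ Zs f I i := by
  have h : IC f I ⊓ deg f i ≤ Zs f I i := fun c hc => ⟨hc.2, dif_IC f hc.1⟩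
  cases i with
  | zero => exact h
  | succ i =>
    refine sup_le ?_ h
    rintro _ ⟨c, hc, rfl⟩
    refine ⟨dif_deg f hc, ?_⟩
    show dif f (dif f c) ∈ IC f I
    rw [dif_dif]
    exact Submodule.zero_mem _

theorem Bs_mono (f : Fin n → R) {I J : Ideal R} (h : I ≤ J) (i : ℕ) : Bs f I i ≤ Bs f J i := by
  cases i with
  | zero => exact inf_le_inf_right _ (IC_mono f h)
  | succ i => exact sup_le_sup_left (inf_le_inf_right _ (IC_mono f h)) _

theorem Zs_mono (f : Fin n → R) {I J : Ideal R} (h : I ≤ J) (i : ℕ) : Zs f I i ≤ Zs f J i :=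
  inf_le_inf_left _ (Submodule.comap_mono (IC_mono f h))

/-- structure of coboundaries -/
theorem exists_Bs_decomp (f : Fin n → R) (I : Ideal R) (x : R) (i : ℕ) {c : Cochain f}
    (hc : c ∈ Bs f (I ⊔ Ideal.span {x}) i) :
    ∃ w ∈ deg f i, c - x • w ∈ Bs f I i := by
  cases i with
  | zero =>
    obtain ⟨b, hb, h⟩ := exists_decomp f I x 0 hc.1 hc.2
    exact ⟨b, hb, h, Submodule.sub_mem _ hc.2 (Submodule.smul_mem _ _ hb)⟩
  | succ i =>
    obtain ⟨a, ha, u, hu, rfl⟩ := Submodule.mem_sup.mp hc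
    obtain ⟨b, hb, h⟩ := exists_decomp f I x (i + 1) hu.1 hu.2
    refine ⟨b, hb, ?_⟩
    rw [add_sub_assoc]
    exact Submodule.add_mem _ (Submodule.mem_sup_left ha)
      (Submodule.mem_sup_right ⟨h, Submodule.sub_mem _ hu.2 (Submodule.smul_mem _ _ hb)⟩)

theorem smul_mem_Bs (f : Fin n → R) (I : Ideal R) (x : R) {i : ℕ} {w : Cochain f}
    (hw : w ∈ deg f i) : x • w ∈ Bs f (I ⊔ Ideal.span {x}) i := by
  apply IC_le_Bs
  refine ⟨fun s => ?_, Submodule.smul_mem _ _ hw⟩
  rw [Pool.Agent.R688.AN.Cech.smul_apply, Algebra.smul_def]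
  apply Ideal.mul_mem_right
  apply Ideal.mem_map_of_mem
  exact Ideal.mem_sup_right (Ideal.mem_span_singleton_self x)

/-- the ideal `𝔞` kills the cohomology modulo `I` in degree `i`. -/
def Ann (f : Fin n → R) (𝔞 : Ideal R) (I : Ideal R) (i : ℕ) : Prop :=
  ∀ a ∈ 𝔞, ∀ c ∈ Zs f I i, a • c ∈ Bs f I i

/-- snake step: the connecting map. -/
theorem connect (f : Fin n → R) {I : Ideal R} {x : R} (h : FR f I x) {i : ℕ} {c : Cochain f}
    (hc : c ∈ Zs f (I ⊔ Ideal.span {x}) i) :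
    ∃ b ∈ Zs f I (i + 1), dif f c - x • b ∈ IC f I := by
  obtain ⟨b, hb, e⟩ := exists_decomp f I x (i + 1) hc.2 (dif_deg f hc.1)
  refine ⟨b, ⟨hb, ?_⟩, e⟩
  show dif f b ∈ IC f I
  apply FR_cochain f h (dif_deg f hb)
  have h1 := dif_IC f e
  rw [map_sub, map_smul, dif_dif, zero_sub] at h1
  exact (Submodule.neg_mem_iff _).mp h1

theorem connect_unique (f : Fin n → R) {I : Ideal R} {x : R} (h : FR f I x) {i : ℕ}
    {c b b' : Cochain f} (hb : b ∈ deg f (i + 1)) (hb' : b' ∈ deg f (i + 1))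
    (e : c - x • b ∈ IC f I) (e' : c - x • b' ∈ IC f I) : b - b' ∈ Bs f I (i + 1) := by
  have hd := Submodule.sub_mem _ hb hb'
  refine IC_le_Bs f I _ ⟨FR_cochain f h hd ?_, hd⟩
  have := Submodule.sub_mem _ e' e
  rw [sub_sub_sub_cancel_left, ← smul_sub] at this
  exact this

/-- if the image under the connecting map is a coboundary, the class lifts. -/
theorem connect_zero (f : Fin n → R) {I : Ideal R} {x : R} {i : ℕ} {c b : Cochain f}
    (hc : c ∈ deg f i) (hb : b ∈ Bs f I (i + 1)) (e : dif f c - x • b ∈ IC f I) :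
    ∃ w ∈ deg f i, c - x • w ∈ Zs f I i := by
  obtain ⟨_, ⟨w, hw, rfl⟩, u, hu, rfl⟩ := Submodule.mem_sup.mp hb
  refine ⟨w, hw, Submodule.sub_mem _ hc (Submodule.smul_mem _ _ hw), ?_⟩
  show dif f (c - x • w) ∈ IC f I
  rw [map_sub, map_smul]
  have := Submodule.add_mem _ e (Submodule.smul_mem _ x hu.1)
  have e2 : dif f c - x • dif f w = dif f c - x • (dif f w + u) + x • u := by
    rw [smul_add]; abel
  rw [e2]
  exact this

theorem Ann_step (f : Fin n → R) {𝔞 𝔟 I : Ideal R} {x : R} (h : FR f I x) {i : ℕ}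
    (h0 : Ann f 𝔞 I i) (h1 : Ann f 𝔟 I (i + 1)) : Ann f (𝔞 * 𝔟) (I ⊔ Ideal.span {x}) i := by
  intro a ha c hc
  refine Submodule.mul_induction_on ha ?_ ?_
  · intro r hr r' hr'
    obtain ⟨b, hb, e⟩ := connect f h hc
    have hb' := h1 r' hr' b hb
    have e' : dif f (r' • c) - x • (r' • b) ∈ IC f I := by
      rw [map_smul, smul_comm x r' b, ← smul_sub]
      exact Submodule.smul_mem _ _ e
    obtain ⟨w, hw, hz⟩ := connect_zero f (Submodule.smul_mem _ r' hc.1) hb' e'
    have h2 := Bs_mono f (le_sup_left : I ≤ I ⊔ Ideal.span {x}) i (h0 r hr _ hz)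
    have h3 := smul_mem_Bs f I x (Submodule.smul_mem _ r hw)
    have e3 : (r * r') • c = r • (r' • c - x • w) + x • (r • w) := by
      rw [smul_sub, smul_comm x r w, mul_smul]; abel
    rw [e3]
    exact Submodule.add_mem _ h2 h3
  · intro r r' hr hr'
    rw [add_smul]
    exact Submodule.add_mem _ hr hr'

theorem Ann_mono (f : Fin n → R) {𝔞 𝔟 I : Ideal R} (hab : 𝔟 ≤ 𝔞) {i : ℕ} (h : Ann f 𝔞 I i) :
    Ann f 𝔟 I i := fun a ha c hc => h a (hab ha) c hc

/-! ### degree zero -/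

/-- the cochain in degree zero of an element of the ring -/
noncomputable def c0 (f : Fin n → R) : R →ₗ[R] Cochain f :=
  (LinearMap.single R (fun s => CLoc f s) ∅).comp (Algebra.linearMap R (CLoc f ∅))

theorem c0_empty (f : Fin n → R) (r : R) : c0 f r ∅ = algebraMap R (CLoc f ∅) r :=
  Pi.single_eq_same (M := fun s => CLoc f s) ∅ (algebraMap R (CLoc f ∅) r)

theorem c0_ne (f : Fin n → R) (r : R) {s : Finset (Fin n)} (hs : s ≠ ∅) : c0 f r s = 0 :=
  Pi.single_eq_of_ne (M := fun s => CLoc f s) hs (algebraMap R (CLoc f ∅) r)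

theorem c0_deg (f : Fin n → R) (r : R) : c0 f r ∈ deg f 0 := by
  intro s hs
  apply c0_ne
  rintro rfl
  simp at hs

theorem c0_mem_IC (f : Fin n → R) (I : Ideal R) (r : R) : c0 f r ∈ IC f I ↔ r ∈ I := by
  constructor
  · intro h
    have h1 := h ∅
    rw [c0_empty, mem_map_iff] at h1
    obtain ⟨N, hN⟩ := h1
    simpa using hN
  · intro h s
    by_cases hs : s = ∅
    · subst hs
      rw [c0_empty]
      exact Ideal.mem_map_of_mem _ h
    · rw [c0_ne f r hs]
      exact Ideal.zero_mem _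

theorem c0_mem_Bs (f : Fin n → R) (I : Ideal R) (r : R) : c0 f r ∈ Bs f I 0 ↔ r ∈ I := by
  rw [← c0_mem_IC f I r]
  exact ⟨fun h => h.1, fun h => ⟨h, c0_deg f r⟩⟩

theorem c0_surj (f : Fin n → R) {c : Cochain f} (hc : c ∈ deg f 0) : ∃ r, c0 f r = c := by
  obtain ⟨k, r, e⟩ := IsLocalization.Away.surj (∏ j ∈ (∅ : Finset (Fin n)), f j) (c ∅)
  refine ⟨r, ?_⟩
  funext s
  by_cases hs : s = ∅
  · subst hs
    rw [c0_empty, ← e]
    simp
  · rw [c0_ne f r hs, hc s]
    simpa using hs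

theorem c0_mem_Zs (f : Fin n → R) (I : Ideal R) (r : R) (h : ∀ j, ∃ N, f j ^ N * r ∈ I) :
    c0 f r ∈ Zs f I 0 := by
  refine ⟨c0_deg f r, ?_⟩
  show dif f (c0 f r) ∈ IC f I
  intro t
  show difAt f (c0 f r) t ∈ _
  unfold difAt
  apply Ideal.sum_mem
  intro j hj
  apply Ideal.mul_mem_left
  by_cases ht : t.erase j = ∅
  · have e : res f (t.erase_subset j) (c0 f r (t.erase j)) = algebraMap R (CLoc f t) r := by
      rw [res_congr f (c0 f r) ht _ (Finset.empty_subset t), c0_empty, res_algebraMap]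
    rw [e, mem_map_iff]
    obtain ⟨N, hN⟩ := h j
    obtain ⟨g, hg⟩ := Finset.dvd_prod_of_mem f hj
    refine ⟨N, ?_⟩
    rw [hg, mul_pow, mul_comm (f j ^ N), mul_assoc]
    exact Ideal.mul_mem_left _ _ hN
  · rw [c0_ne f r ht, map_zero]
    exact Ideal.zero_mem _

end Pool.Agent.R688.FC
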