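import Mathlib

/-! Lengths of subquotients. -/

namespace Pool.Agent.R688.FC

universe v w
variable {R : Type v} [CommRing R] {M : Type w} [AddCommGroup M] [Module R M]

/-- the length of `K / (K ∩ B)`. -/
noncomputable def relLen (B K : Submodule R M) : ℕ∞ := Module.length R (K.map B.mkQ)

theorem length_range_add_ker {N : Type*} [AddCommGroup N] [Module R N]
    {M : Type*} [AddCommGroup M] [Module R M] (g : N →ₗ[R] M) :
    Module.length R N = Module.length R (LinearMap.ker g) + Module.length R (LinearMap.range g) := by
  refine Module.length_eq_add_of_exact (LinearMap.ker g).subtype g.rangeRestrict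
    (Submodule.subtype_injective _) g.surjective_rangeRestrict ?_
  rw [LinearMap.exact_iff, LinearMap.ker_rangeRestrict, Submodule.range_subtype]

theorem length_mono {A B : Submodule R M} (h : A ≤ B) :
    Module.length R A ≤ Module.length R B :=
  Module.length_le_of_injective (Submodule.inclusion h) (Submodule.inclusion_injective h)

theorem length_map_le {M' : Type*} [AddCommGroup M'] [Module R M'] (g : M →ₗ[R] M')
    (A : Submodule R M) : Module.length R (A.map g) ≤ Module.length R A :=
  Module.length_le_of_surjective (g.submoduleMap A) (g.submoduleMap_surjective A)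

theorem length_map_inj {M' : Type*} [AddCommGroup M'] [Module R M'] (g : M →ₗ[R] M')
    (hg : Function.Injective g) (A : Submodule R M) :
    Module.length R A ≤ Module.length R (A.map g) :=
  Module.length_le_of_injective (g.submoduleMap A)
    (fun _ _ h => Subtype.ext (hg (congrArg Subtype.val h)))

theorem relLen_trans (B D K : Submodule R M) (h : B ≤ D) :
    relLen B K ≤ relLen B D + relLen D K := by
  unfold relLen
  let g : (K.map B.mkQ) →ₗ[R] (M ⧸ D) := (B.mapQ D LinearMap.id (by simpa using h)).domRestrict _
  rw [length_range_add_ker g]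
  have h1 : Module.length R (LinearMap.ker g) ≤ Module.length R (D.map B.mkQ) := by
    refine (length_map_inj (K.map B.mkQ).subtype (Submodule.subtype_injective _) _).trans ?_
    apply length_mono
    rintro _ ⟨⟨_, ⟨k, hk, rfl⟩⟩, hx, rfl⟩
    have : D.mkQ k = 0 := hx
    exact ⟨k, (Submodule.Quotient.mk_eq_zero D).mp this, rfl⟩
  have h2 : Module.length R (LinearMap.range g) ≤ Module.length R (K.map D.mkQ) := by
    apply length_mono
    rintro _ ⟨⟨_, ⟨k, hk, rfl⟩⟩, rfl⟩
    exact ⟨k, hk, rfl⟩
  exact add_le_add h1 h2

theorem relLen_sup (B K : Submodule R M) : relLen B (B ⊔ K) ≤ relLen B K := by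
  unfold relLen
  apply length_mono
  rw [Submodule.map_sup]
  apply sup_le
  · rintro _ ⟨b, hb, rfl⟩
    have : B.mkQ b = 0 := (Submodule.Quotient.mk_eq_zero B).mpr hb
    rw [this]
    exact Submodule.zero_mem _
  · exact le_rfl

theorem relLen_mono_left {B B' : Submodule R M} (h : B ≤ B') (K : Submodule R M) :
    relLen B' K ≤ relLen B K := by
  unfold relLen
  have : K.map B'.mkQ = (K.map B.mkQ).map (B.mapQ B' LinearMap.id (by simpa using h)) := by
    rw [← Submodule.map_comp]
    rfl
  rw [this]
  exact length_map_le _ _

theorem relLen_mono_right (B : Submodule R M) {K K' : Submodule R M} (h : K ≤ K') :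
    relLen B K ≤ relLen B K' := length_mono (Submodule.map_mono h)

theorem relLen_le_range {M' : Type*} [AddCommGroup M'] [Module R M'] (D K : Submodule R M)
    (δ : K →ₗ[R] M') (h : ∀ c : K, δ c = 0 → (c : M) ∈ D) :
    relLen D K ≤ Module.length R (LinearMap.range δ) := by
  unfold relLen
  rw [← LinearEquiv.length_eq δ.quotKerEquivRange]
  let g : (K ⧸ LinearMap.ker δ) →ₗ[R] (K.map D.mkQ) :=
    (LinearMap.ker δ).liftQ (D.mkQ.submoduleMap K) (by
      intro c hc
      apply Subtype.ext
      exact (Submodule.Quotient.mk_eq_zero D).mpr (h c hc))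
  refine Module.length_le_of_surjective g ?_
  intro y
  obtain ⟨c, rfl⟩ := (D.mkQ.submoduleMap_surjective K) y
  exact ⟨Submodule.Quotient.mk c, rfl⟩

end Pool.Agent.R688.FC
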