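import Pool.Agent.R688.FC.Cx
import Pool.Agent.R688.FC.Len

/-! Frobenius on the Čech complex modulo an ideal. -/

namespace Pool.Agent.R688.FC
open Finset Pool.Agent.R688.AN.Cech

universe v
variable {R : Type v} [CommRing R] {n : ℕ} (p : ℕ) [hp : Fact p.Prime] [CharP R p]

/-- the iterated Frobenius on cochains -/
noncomputable def Fe (f : Fin n → R) : ℕ → Cochain f → Cochain f
  | 0, c => c
  | e + 1, c => frobC p f (Fe f e c)

/-- Frobenius powers of ideals -/
def Ifr (R : Type v) [CommRing R] [CharP R p] : ℕ → Ideal R → Ideal R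
  | 0, I => I
  | e + 1, I => (Ifr R e I).map (frobenius R p)

theorem Fe_add (f : Fin n → R) (e : ℕ) (c c' : Cochain f) :
    Fe p f e (c + c') = Fe p f e c + Fe p f e c' := by
  induction e with
  | zero => rfl
  | succ e ih => rw [Fe, ih, map_add]; rfl

theorem Fe_zero (f : Fin n → R) (e : ℕ) : Fe p f e (0 : Cochain f) = 0 := by
  induction e with
  | zero => rfl
  | succ e ih => rw [Fe, ih, map_zero]

theorem Fe_sub (f : Fin n → R) (e : ℕ) (c c' : Cochain f) :
    Fe p f e (c - c') = Fe p f e c - Fe p f e c' := by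
  induction e with
  | zero => rfl
  | succ e ih => rw [Fe, ih, map_sub]; rfl

theorem Fe_smul (f : Fin n → R) (e : ℕ) (r : R) (c : Cochain f) :
    Fe p f e (r • c) = r ^ (p ^ e) • Fe p f e c := by
  induction e with
  | zero => rw [pow_zero, pow_one]; rfl
  | succ e ih =>
    rw [Fe, ih, LinearMap.map_smulₛₗ, frobenius_def, ← pow_mul, ← pow_succ]
    rfl

theorem dif_Fe (f : Fin n → R) (e : ℕ) (c : Cochain f) : dif f (Fe p f e c) = Fe p f e (dif f c) := by
  induction e with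
  | zero => rfl
  | succ e ih => rw [Fe, dif_frobC, ih]; rfl

theorem Fe_deg (f : Fin n → R) (e i : ℕ) {c : Cochain f} (hc : c ∈ deg f i) :
    Fe p f e c ∈ deg f i := by
  induction e with
  | zero => exact hc
  | succ e ih => exact frobC_deg p f i ih

theorem Ifr_sup (e : ℕ) (I J : Ideal R) : Ifr p R e (I ⊔ J) = Ifr p R e I ⊔ Ifr p R e J := by
  induction e with
  | zero => rfl
  | succ e ih => rw [Ifr, ih, Ideal.map_sup]; rfl

theorem Ifr_span (e : ℕ) (s : Set R) : Ifr p R e (Ideal.span s) = Ideal.span ((fun x => x ^ (p ^ e)) '' s) := by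
  induction e with
  | zero => simp [Ifr]
  | succ e ih =>
    rw [Ifr, ih, Ideal.map_span, Set.image_image]
    congr 1
    apply Set.image_congr
    intro x _
    rw [frobenius_def, ← pow_mul, ← pow_succ]

theorem Ifr_singleton (e : ℕ) (x : R) : Ifr p R e (Ideal.span {x}) = Ideal.span {x ^ (p ^ e)} := by
  rw [Ifr_span, Set.image_singleton]

theorem Ifr_bot (e : ℕ) : Ifr p R e ⊥ = ⊥ := by
  induction e with
  | zero => rfl
  | succ e ih => rw [Ifr, ih, Ideal.map_bot]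

theorem frobC_IC (f : Fin n → R) {I : Ideal R} {c : Cochain f} (hc : c ∈ IC f I) :
    frobC p f c ∈ IC f (I.map (frobenius R p)) := by
  intro s
  show c s ^ p ∈ _
  have h := hc s
  rw [Ideal.map, ← Submodule.span_eq I] at h
  have key : ∀ y ∈ I.map (algebraMap R (CLoc f s)),
      y ^ p ∈ (I.map (frobenius R p)).map (algebraMap R (CLoc f s)) := by
    intro y hy
    refine Submodule.span_induction ?_ ?_ ?_ ?_ hy
    · rintro _ ⟨r, hr, rfl⟩
      rw [← map_pow]
      exact Ideal.mem_map_of_mem _ (Ideal.mem_map_of_mem (frobenius R p) hr)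
    · rw [zero_pow hp.out.ne_zero]
      exact Ideal.zero_mem _
    · intro a b _ _ ha hb
      rw [add_pow' (R := R) p a b]
      exact Ideal.add_mem _ ha hb
    · intro a b _ hb
      rw [smul_eq_mul, mul_pow]
      exact Ideal.mul_mem_left _ _ hb
  exact key _ (hc s)

theorem frobC_Zs (f : Fin n → R) {I : Ideal R} {i : ℕ} {c : Cochain f} (hc : c ∈ Zs f I i) :
    frobC p f c ∈ Zs f (I.map (frobenius R p)) i := by
  refine ⟨frobC_deg p f i hc.1, ?_⟩
  show dif f (frobC p f c) ∈ IC f (I.map (frobenius R p))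
  rw [dif_frobC]
  exact frobC_IC p f hc.2

theorem frobC_Bs (f : Fin n → R) {I : Ideal R} {i : ℕ} {c : Cochain f} (hc : c ∈ Bs f I i) :
    frobC p f c ∈ Bs f (I.map (frobenius R p)) i := by
  cases i with
  | zero => exact ⟨frobC_IC p f hc.1, frobC_deg p f 0 hc.2⟩
  | succ i =>
    obtain ⟨_, ⟨w, hw, rfl⟩, u, hu, rfl⟩ := Submodule.mem_sup.mp hc
    rw [map_add, ← dif_frobC]
    exact Submodule.add_mem _ (dif_mem_Bs f _ (frobC_deg p f i hw))
      (IC_le_Bs f _ _ ⟨frobC_IC p f hu.1, frobC_deg p f _ hu.2⟩)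

theorem Fe_IC (f : Fin n → R) (e : ℕ) {I : Ideal R} {c : Cochain f} (hc : c ∈ IC f I) :
    Fe p f e c ∈ IC f (Ifr p R e I) := by
  induction e with
  | zero => exact hc
  | succ e ih => exact frobC_IC p f ih

theorem Fe_Zs (f : Fin n → R) (e : ℕ) {I : Ideal R} {i : ℕ} {c : Cochain f} (hc : c ∈ Zs f I i) :
    Fe p f e c ∈ Zs f (Ifr p R e I) i := by
  induction e with
  | zero => exact hc
  | succ e ih => exact frobC_Zs p f ih

theorem Fe_Bs_mono (f : Fin n → R) {e e' : ℕ} (h : e ≤ e') {I : Ideal R} {i : ℕ} {c : Cochain f}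
    (hc : Fe p f e c ∈ Bs f (Ifr p R e I) i) : Fe p f e' c ∈ Bs f (Ifr p R e' I) i := by
  induction e', h using Nat.le_induction with
  | base => exact hc
  | succ e' _ ih => exact frobC_Bs p f ih

/-- the classes modulo `I` which become zero after a power of Frobenius. -/
noncomputable def Ks (f : Fin n → R) (I : Ideal R) (i : ℕ) : Submodule R (Cochain f) where
  carrier := {c | c ∈ Zs f I i ∧ ∃ e, Fe p f e c ∈ Bs f (Ifr p R e I) i}
  zero_mem' := ⟨Submodule.zero_mem _, 0, Submodule.zero_mem _⟩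
  add_mem' := by
    rintro a b ⟨ha, e, he⟩ ⟨hb, e', he'⟩
    refine ⟨Submodule.add_mem _ ha hb, max e e', ?_⟩
    rw [Fe_add]
    exact Submodule.add_mem _ (Fe_Bs_mono p f (le_max_left _ _) he)
      (Fe_Bs_mono p f (le_max_right _ _) he')
  smul_mem' := by
    rintro r a ⟨ha, e, he⟩
    refine ⟨Submodule.smul_mem _ _ ha, e, ?_⟩
    rw [Fe_smul]
    exact Submodule.smul_mem _ _ he

theorem Bs_le_Ks (f : Fin n → R) (I : Ideal R) (i : ℕ) : Bs f I i ≤ Ks p f I i :=
  fun _ hc => ⟨Bs_le_Zs f I i hc, 0, hc⟩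

theorem Fe_Bs (f : Fin n → R) (e : ℕ) {I : Ideal R} {i : ℕ} {c : Cochain f} (hc : c ∈ Bs f I i) :
    Fe p f e c ∈ Bs f (Ifr p R e I) i := by
  induction e with
  | zero => exact hc
  | succ e ih => exact frobC_Bs p f ih

theorem Ks_mono (f : Fin n → R) (I : Ideal R) (x : R) (i : ℕ) :
    Ks p f I i ≤ Ks p f (I ⊔ Ideal.span {x}) i := by
  rintro c ⟨hc, e, he⟩
  refine ⟨Zs_mono f le_sup_left i hc, e, ?_⟩
  rw [Ifr_sup]
  exact Bs_mono f le_sup_left i he

section main
variable {p} (f : Fin n → R) {I : Ideal R} {x : R}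
  (hFR : ∀ e, FR f (Ifr p R e I) (x ^ (p ^ e)))

include hFR in
theorem connect_Ks {i : ℕ} {c b : Cochain f} (hc : c ∈ Ks p f (I ⊔ Ideal.span {x}) i)
    (hb : b ∈ Zs f I (i + 1)) (hcb : dif f c - x • b ∈ IC f I) : b ∈ Ks p f I (i + 1) := by
  obtain ⟨hc1, e, he⟩ := hc
  refine ⟨hb, e, ?_⟩
  rw [Ifr_sup, Ifr_singleton] at he
  obtain ⟨w, hw, h⟩ := exists_Bs_decomp f _ _ i he
  have h1 := (Bs_le_Zs f _ i h).2
  have h1' : dif f (Fe p f e c - x ^ (p ^ e) • w) ∈ IC f (Ifr p R e I) := h1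
  rw [map_sub, map_smul, dif_Fe] at h1'
  have h2 := Fe_IC p f e hcb
  rw [Fe_sub, Fe_smul] at h2
  have h3 := connect_unique f (hFR e) (Fe_deg p f e (i + 1) hb.1) (dif_deg f hw) h2 h1'
  have h4 := Submodule.add_mem _ h3 (dif_mem_Bs f (Ifr p R e I) hw)
  rwa [sub_add_cancel] at h4

include hFR in
theorem connect_ker {i : ℕ} {𝔞 : Ideal R} (hAnn : ∀ e, Ann f 𝔞 (Ifr p R e I) i)
    (hx : ∃ M, x ^ M ∈ 𝔞) {c b : Cochain f} (hc : c ∈ Ks p f (I ⊔ Ideal.span {x}) i)
    (hb : b ∈ Bs f I (i + 1)) (hcb : dif f c - x • b ∈ IC f I) :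
    c ∈ Bs f (I ⊔ Ideal.span {x}) i ⊔ Ks p f I i := by
  obtain ⟨w, hw, hz⟩ := connect_zero f hc.1.1 hb hcb
  have hxw := smul_mem_Bs f I x hw
  have hc' := Submodule.sub_mem _ hc (Bs_le_Ks p f _ i hxw)
  suffices h : c - x • w ∈ Ks p f I i by
    have := Submodule.add_mem _ (Submodule.mem_sup_right h) (Submodule.mem_sup_left hxw)
    rwa [sub_add_cancel] at this
  set c' := c - x • w with hc'def
  obtain ⟨-, e0, he0⟩ := hc'
  obtain ⟨M, hM⟩ := hx
  let e := max e0 M
  have he : Fe p f e c' ∈ Bs f (Ifr p R e (I ⊔ Ideal.span {x})) i :=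
    Fe_Bs_mono p f (le_max_left _ _) he0
  refine ⟨hz, e, ?_⟩
  rw [Ifr_sup, Ifr_singleton] at he
  obtain ⟨w', hw', h⟩ := exists_Bs_decomp f _ _ i he
  have hzw : w' ∈ Zs f (Ifr p R e I) i := by
    refine ⟨hw', ?_⟩
    show dif f w' ∈ IC f (Ifr p R e I)
    apply FR_cochain f (hFR e) (dif_deg f hw')
    have h1 := Submodule.sub_mem _ (Fe_Zs p f e hz) (Bs_le_Zs f _ i h)
    rw [sub_sub_cancel] at h1
    have h2 : dif f (x ^ (p ^ e) • w') ∈ IC f (Ifr p R e I) := h1.2
    rwa [map_smul] at h2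
  have hxa : x ^ (p ^ e) ∈ 𝔞 := by
    have h3 : M ≤ p ^ e :=
      ((le_max_right e0 M).trans (Nat.lt_pow_self hp.out.one_lt).le)
    rw [← Nat.sub_add_cancel h3, pow_add]
    exact Ideal.mul_mem_left _ _ hM
  have h4 := Submodule.add_mem _ h (hAnn e _ hxa _ hzw)
  rwa [sub_add_cancel] at h4

include hFR in
theorem main_step {i : ℕ} {𝔞 : Ideal R} (hAnn : ∀ e, Ann f 𝔞 (Ifr p R e I) i)
    (hx : ∃ M, x ^ M ∈ 𝔞) :
    relLen (Bs f (I ⊔ Ideal.span {x}) i) (Ks p f (I ⊔ Ideal.span {x}) i) ≤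
      relLen (Bs f I i) (Ks p f I i) + relLen (Bs f I (i + 1)) (Ks p f I (i + 1)) := by
  set J := I ⊔ Ideal.span {x} with hJ
  have hFR0 : FR f I x := by
    have := hFR 0
    rwa [pow_zero, pow_one] at this
  choose! β hβ1 hβ2 using fun (c : Cochain f) (hc : c ∈ Zs f J i) => connect f hFR0 hc
  have uniq : ∀ c ∈ Zs f J i, ∀ b ∈ deg f (i + 1), dif f c - x • b ∈ IC f I →
      (Bs f I (i + 1)).mkQ (β c) = (Bs f I (i + 1)).mkQ b := by
    intro c hc b hb h
    rw [← sub_eq_zero, ← map_sub]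
    exact (Submodule.Quotient.mk_eq_zero _).mpr
      (connect_unique f hFR0 (hβ1 c hc).1 hb (hβ2 c hc) h)
  let δ : Ks p f J i →ₗ[R] (Cochain f ⧸ Bs f I (i + 1)) :=
    { toFun := fun c => (Bs f I (i + 1)).mkQ (β c.1)
      map_add' := by
        intro c c'
        rw [← map_add]
        refine uniq _ (c + c').2.1 _ (Submodule.add_mem _ (hβ1 _ c.2.1).1 (hβ1 _ c'.2.1).1) ?_
        have := Submodule.add_mem _ (hβ2 _ c.2.1) (hβ2 _ c'.2.1)
        rw [Submodule.coe_add, map_add, smul_add, add_sub_add_comm]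
        exact this
      map_smul' := by
        intro r c
        rw [RingHom.id_apply, ← map_smul]
        refine uniq _ (r • c).2.1 _ (Submodule.smul_mem _ _ (hβ1 _ c.2.1).1) ?_
        have := Submodule.smul_mem _ r (hβ2 _ c.2.1)
        rw [Submodule.coe_smul, map_smul, smul_comm x r, ← smul_sub]
        exact this }
  have hrange : LinearMap.range δ ≤ (Ks p f I (i + 1)).map (Bs f I (i + 1)).mkQ := by
    rintro _ ⟨c, rfl⟩
    exact ⟨β c.1, connect_Ks f hFR c.2 (hβ1 _ c.2.1) (hβ2 _ c.2.1), rfl⟩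
  have hker : ∀ c : Ks p f J i, δ c = 0 → (c : Cochain f) ∈ Bs f J i ⊔ Ks p f I i := by
    intro c hc
    exact connect_ker f hFR hAnn hx c.2 ((Submodule.Quotient.mk_eq_zero _).mp hc) (hβ2 _ c.2.1)
  refine (relLen_trans (Bs f J i) (Bs f J i ⊔ Ks p f I i) (Ks p f J i) le_sup_left).trans ?_
  refine add_le_add ?_ ?_
  · exact (relLen_sup _ _).trans (relLen_mono_left (Bs_mono f le_sup_left i) _)
  · exact (relLen_le_range _ _ δ hker).trans (length_mono hrange)

end main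

end Pool.Agent.R688.FC
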