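import Pool.Agent.R688.FC.Fr
import Pool.Agent.R688.FC.Alg

/-! The length inequality. -/

namespace Pool.Agent.R688.FC
open Finset Pool.Agent.R688.AN.Cech

universe v
variable {R : Type v} [CommRing R] (p : ℕ) [hp : Fact p.Prime] [CharP R p]

/-- The Frobenius closure of an ideal `q`: the `x` with `x ^ p ^ e ∈ q^[p ^ e]` for some `e`. -/
def frobClosure (q : Ideal R) : Ideal R where
  carrier := {x | ∃ e : ℕ, x ^ p ^ e ∈ Ideal.span ((fun y => y ^ p ^ e) '' (q : Set R))}
  zero_mem' := ⟨0, by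
    rw [pow_zero, pow_one]
    exact Ideal.zero_mem _⟩
  add_mem' := by
    rintro a b ⟨e, he⟩ ⟨e', he'⟩
    have key : ∀ (z : R) (m k : ℕ), z ^ p ^ m ∈ Ideal.span ((fun y => y ^ p ^ m) '' (q : Set R)) →
        z ^ p ^ (m + k) ∈ Ideal.span ((fun y => y ^ p ^ (m + k)) '' (q : Set R)) := by
      intro z m k h
      induction k with
      | zero => exact h
      | succ k ih =>
        rw [← Ifr_span, Ideal.span_eq] at ih ⊢
        rw [← add_assoc, pow_succ, pow_mul]
        exact Ideal.mem_map_of_mem (frobenius R p) ih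
    refine ⟨e + e', ?_⟩
    rw [add_pow_char_pow]
    refine Ideal.add_mem _ (key a e e' he) ?_
    rw [add_comm e e']
    exact key b e' e he'
  smul_mem' := by
    rintro r a ⟨e, he⟩
    refine ⟨e, ?_⟩
    rw [smul_eq_mul, mul_pow]
    exact Ideal.mul_mem_left _ _ he

/-- `0^F` in local cohomology: the classes killed by a power of the Frobenius action. -/
noncomputable def nilPart {n : ℕ} (f : Fin n → R) (i : ℕ) : Submodule R (CechH f i) where
  carrier := {z | ∃ e : ℕ, (frobH p f i)^[e] z = 0}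
  zero_mem' := ⟨0, rfl⟩
  add_mem' := by
    rintro a b ⟨e, he⟩ ⟨e', he'⟩
    have hz : ∀ k, (frobH p f i)^[k] 0 = 0 := by
      intro k
      induction k with
      | zero => rfl
      | succ k ih => rw [Function.iterate_succ_apply', ih, map_zero]
    have hadd : ∀ k, (frobH p f i)^[k] (a + b) = (frobH p f i)^[k] a + (frobH p f i)^[k] b := by
      intro k
      induction k with
      | zero => rfl
      | succ k ih => rw [Function.iterate_succ_apply', ih, map_add,
        Function.iterate_succ_apply', Function.iterate_succ_apply']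
    refine ⟨e + e', ?_⟩
    rw [hadd]
    nth_rewrite 1 [add_comm e e']
    rw [Function.iterate_add_apply, he, Function.iterate_add_apply, he', hz, hz, add_zero]
  smul_mem' := by
    rintro r a ⟨e, he⟩
    have hs : ∀ k, (frobH p f i)^[k] (r • a) = r ^ p ^ k • (frobH p f i)^[k] a := by
      intro k
      induction k with
      | zero => rw [pow_zero, pow_one]; rfl
      | succ k ih => rw [Function.iterate_succ_apply', ih, LinearMap.map_smulₛₗ,
        Function.iterate_succ_apply', frobenius_def, ← pow_mul, ← pow_succ]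
    refine ⟨e, ?_⟩
    rw [hs, he, smul_zero]

theorem IC_bot_eq {n : ℕ} (f : Fin n → R) (i : ℕ) : Bs f (⊥ : Ideal R) i ≤ coboundaries f i := by
  cases i with
  | zero =>
    intro c hc
    exact IC_bot f hc.1
  | succ i =>
    refine sup_le le_rfl ?_
    intro c hc
    rw [IC_bot f hc.1]
    exact Submodule.zero_mem _

theorem cob_le_Bs {n : ℕ} (f : Fin n → R) (i : ℕ) : coboundaries f i ≤ Bs f (⊥ : Ideal R) i := by
  cases i with
  | zero =>
    intro c hc
    have : c = 0 := hc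
    rw [this]
    exact Submodule.zero_mem _
  | succ i => exact le_sup_left

theorem Zs_bot {n : ℕ} (f : Fin n → R) (i : ℕ) {c : Cochain f} (hc : c ∈ Zs f (⊥ : Ideal R) i) :
    c ∈ cocycles f i := ⟨hc.1, IC_bot f hc.2⟩

theorem iter_frobH {n : ℕ} (f : Fin n → R) (i e : ℕ) (c : cocycles f i) :
    ∃ h : Fe p f e c.1 ∈ cocycles f i,
      (frobH p f i)^[e] (Submodule.Quotient.mk (p := cobZ f i) c : CechH f i) =
        (Submodule.Quotient.mk (p := cobZ f i) ⟨Fe p f e c.1, h⟩ : CechH f i) := by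
  induction e with
  | zero => exact ⟨c.2, rfl⟩
  | succ e ih =>
    obtain ⟨h, e1⟩ := ih
    refine ⟨frobC_cocycles p f i h, ?_⟩
    rw [Function.iterate_succ_apply', e1]
    rfl

theorem relLen_le_nil {n : ℕ} (f : Fin n → R) (i : ℕ) :
    relLen (Bs f (⊥ : Ideal R) i) (Ks p f (⊥ : Ideal R) i) ≤ Module.length R (nilPart p f i) := by
  let ι : CechH f i →ₗ[R] (Cochain f ⧸ Bs f (⊥ : Ideal R) i) :=
    (cobZ f i).mapQ (Bs f (⊥ : Ideal R) i) (cocycles f i).subtype
      (fun c hc => cob_le_Bs f i hc)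
  refine le_trans ?_ (length_map_le ι (nilPart p f i))
  apply length_mono
  rintro _ ⟨c, hc, rfl⟩
  obtain ⟨hcZ, e, he⟩ := hc
  refine ⟨(Submodule.Quotient.mk (p := cobZ f i) ⟨c, Zs_bot f i hcZ⟩ : CechH f i), ?_, rfl⟩
  refine ⟨e, ?_⟩
  obtain ⟨h, e1⟩ := iter_frobH p f i e ⟨c, Zs_bot f i hcZ⟩
  rw [e1]
  refine (Submodule.Quotient.mk_eq_zero _).mpr ?_
  rw [Ifr_bot] at he
  exact IC_bot_eq f i he

theorem frobC_c0 {n : ℕ} (f : Fin n → R) (r : R) : frobC p f (c0 f r) = c0 f (r ^ p) := by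
  funext s
  show (c0 f r s) ^ p = c0 f (r ^ p) s
  by_cases hs : s = ∅
  · subst hs
    rw [c0_empty, c0_empty, map_pow]
  · rw [c0_ne f r hs, c0_ne f _ hs, zero_pow hp.out.ne_zero]

theorem Fe_c0 {n : ℕ} (f : Fin n → R) (e : ℕ) (r : R) : Fe p f e (c0 f r) = c0 f (r ^ p ^ e) := by
  induction e with
  | zero => rw [pow_zero, pow_one]; rfl
  | succ e ih => rw [Fe, ih, frobC_c0, ← pow_mul, ← pow_succ]

theorem length_le_relLen {n : ℕ} (f : Fin n → R) (q : Ideal R)
    (hq : ∀ j, ∃ N, f j ^ N ∈ q) :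
    Module.length R (frobClosure p q ⧸ q.submoduleOf (frobClosure p q)) ≤
      relLen (Bs f q 0) (Ks p f q 0) := by
  let φ : frobClosure p q →ₗ[R] (Cochain f ⧸ Bs f q 0) :=
    ((Bs f q 0).mkQ.comp (c0 f)).domRestrict (frobClosure p q)
  have hker : LinearMap.ker φ = q.submoduleOf (frobClosure p q) := by
    ext r
    rw [LinearMap.mem_ker]
    show (Bs f q 0).mkQ (c0 f r.1) = 0 ↔ r.1 ∈ q
    rw [← c0_mem_Bs f q r.1]
    exact Submodule.Quotient.mk_eq_zero _
  rw [← hker, LinearEquiv.length_eq φ.quotKerEquivRange]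
  apply length_mono
  rintro _ ⟨r, rfl⟩
  refine ⟨c0 f r.1, ⟨?_, ?_⟩, rfl⟩
  · apply c0_mem_Zs
    intro j
    obtain ⟨N, hN⟩ := hq j
    exact ⟨N, Ideal.mul_mem_right _ _ hN⟩
  · obtain ⟨e, he⟩ := r.2
    refine ⟨e, ?_⟩
    rw [Fe_c0, c0_mem_Bs]
    have h2 : Ifr p R e q = Ideal.span ((fun y => y ^ p ^ e) '' (q : Set R)) := by
      rw [← Ifr_span, Ideal.span_eq]
    rw [h2]
    exact he

section fin
variable [IsLocalRing R]

omit [CharP R p] hp in
theorem killed {M : Type v} [AddCommGroup M] [Module R M] (h : Module.length R M ≠ ⊤) :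
    ∃ N : ℕ, ∀ z ∈ (IsLocalRing.maximalIdeal R) ^ N, ∀ y : M, z • y = 0 := by
  rw [Module.length_ne_top_iff, isFiniteLength_iff_isNoetherian_isArtinian] at h
  obtain ⟨h1, h2⟩ := h
  let g : ℕ →o (Submodule R M)ᵒᵈ :=
    { toFun := fun k => OrderDual.toDual ((IsLocalRing.maximalIdeal R) ^ k • (⊤ : Submodule R M))
      monotone' := fun a b hab => Submodule.smul_mono_left (Ideal.pow_le_pow_right hab) }
  obtain ⟨N, hN⟩ := IsArtinian.monotone_stabilizes g
  have h3 : ((IsLocalRing.maximalIdeal R) ^ N • (⊤ : Submodule R M)) = (IsLocalRing.maximalIdeal R) ^ (N + 1) • (⊤ : Submodule R M) :=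
    hN (N + 1) (Nat.le_succ N)
  have h4 : ((IsLocalRing.maximalIdeal R) ^ N • (⊤ : Submodule R M)) = ⊥ := by
    apply Submodule.eq_bot_of_le_smul_of_le_jacobson_bot (IsLocalRing.maximalIdeal R) _ (IsNoetherian.noetherian _)
    · nth_rewrite 1 [h3]
      rw [pow_succ', Submodule.mul_smul]
    · exact IsLocalRing.maximalIdeal_le_jacobson _
  refine ⟨N, fun z hz y => ?_⟩
  have : z • y ∈ ((IsLocalRing.maximalIdeal R) ^ N • (⊤ : Submodule R M)) := Submodule.smul_mem_smul hz Submodule.mem_top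
  rw [h4] at this
  exact this

omit [CharP R p] hp in
theorem Ann_base {n : ℕ} (f : Fin n → R) (i : ℕ) (h : Module.length R (CechH f i) ≠ ⊤) :
    ∃ N : ℕ, Ann f ((IsLocalRing.maximalIdeal R) ^ N) (⊥ : Ideal R) i := by
  obtain ⟨N, hN⟩ := killed h
  refine ⟨N, fun a ha c hc => ?_⟩
  have h1 := hN a ha (Submodule.Quotient.mk (p := cobZ f i) ⟨c, Zs_bot f i hc⟩ : CechH f i)
  have h2 : (Submodule.Quotient.mk (p := cobZ f i) (a • ⟨c, Zs_bot f i hc⟩) : CechH f i) = 0 := h1
  have h3 : (a • (⟨c, Zs_bot f i hc⟩ : cocycles f i)) ∈ cobZ f i :=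
    (Submodule.Quotient.mk_eq_zero _).mp h2
  exact cob_le_Bs f i h3

variable (R) in
/-- partial ideals -/
def II (x : ℕ → R) : ℕ → Ideal R
  | 0 => ⊥
  | k + 1 => II x k ⊔ Ideal.span {x k}

omit [CharP R p] hp [IsLocalRing R] in
theorem II_eq (x : ℕ → R) (k : ℕ) : II R x k = Ideal.span (x '' {j | j < k}) := by
  induction k with
  | zero => simp [II]
  | succ k ih =>
    rw [II, ih, ← Ideal.span_union, ← Set.image_singleton (f := x) (a := k), ← Set.image_union]
    congr 2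
    ext j
    simp only [Set.mem_union, Set.mem_ofPred_eq, Set.mem_singleton_iff]
    omega

variable [IsNoetherianRing R]

omit [IsLocalRing R] [IsNoetherianRing R] in
theorem HB_mono {𝔞 : Ideal R} {t t' : ℕ} (h : t ≤ t') (hH : HB 𝔞 t) : HB 𝔞 t' :=
  fun l hl => (hH l hl).trans h

theorem FR_sop {n : ℕ} (f : Fin n → R) (hf : ∀ j, f j ∈ (IsLocalRing.maximalIdeal R)) (d : ℕ) (x : ℕ → R)
    (hxm : ∀ j < d, x j ∈ (IsLocalRing.maximalIdeal R)) (hx : ∀ Q : Ideal R, Q.IsPrime → (∀ j < d, x j ∈ Q) → Q = (IsLocalRing.maximalIdeal R))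
    (k : ℕ) (hk : k < d) (e : ℕ) (𝔫 : Ideal R) (hn : ∀ j, ∃ N, f j ^ N ∈ 𝔫)
    (hAnn : ∀ i, i + k < d → Ann f 𝔫 (Ifr p R e (II R x k)) i) :
    FR f (Ifr p R e (II R x k)) (x k ^ p ^ e) := by
  classical
  refine FR_of_Ann f hf (d - k - 1) _ 𝔫 _ (fun i hi => hAnn i (by omega)) ?_ hn
  intro 𝔞 h𝔞 hx𝔞
  let z : Finset R := (Finset.Ico (k + 1) d).image x
  have hz : z.card ≤ d - k - 1 := by
    refine Finset.card_image_le.trans ?_
    rw [Nat.card_Ico]
    omega
  refine HB_mono hz (HB_of_sop 𝔞 z ?_ ?_)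
  · intro y hy
    obtain ⟨j, hj, rfl⟩ := Finset.mem_image.mp hy
    exact hxm j (Finset.mem_Ico.mp hj).2
  · intro Q hQ hQ𝔞 hQz
    apply hx Q hQ
    intro j hj
    rcases lt_trichotomy j k with h | h | h
    · apply hQ.mem_of_pow_mem (p ^ e)
      apply hQ𝔞
      apply h𝔞
      rw [II_eq, Ifr_span]
      exact Ideal.subset_span ⟨x j, ⟨j, h, rfl⟩, rfl⟩
    · subst h
      exact hQ.mem_of_pow_mem (p ^ e) (hQ𝔞 hx𝔞)
    · exact hQz _ (Finset.mem_image_of_mem _ (Finset.mem_Ico.mpr ⟨h, hj⟩))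

theorem Ann_all {n : ℕ} (f : Fin n → R) (hf : ∀ j, f j ∈ (IsLocalRing.maximalIdeal R)) (d : ℕ) (x : ℕ → R)
    (hxm : ∀ j < d, x j ∈ (IsLocalRing.maximalIdeal R)) (hx : ∀ Q : Ideal R, Q.IsPrime → (∀ j < d, x j ∈ Q) → Q = (IsLocalRing.maximalIdeal R))
    (hfin : ∀ i < d, Module.length R (CechH f i) ≠ ⊤) (k : ℕ) (hk : k ≤ d) :
    ∃ N : ℕ, ∀ e i, i + k < d → Ann f ((IsLocalRing.maximalIdeal R) ^ N) (Ifr p R e (II R x k)) i := by
  induction k with
  | zero =>
    choose! N hN using fun i (hi : i < d) => Ann_base f i (hfin i hi)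
    refine ⟨(Finset.range d).sup N, fun e i hi => ?_⟩
    rw [II, Ifr_bot]
    refine Ann_mono f (Ideal.pow_le_pow_right ?_) (hN i (by omega))
    exact Finset.le_sup (f := N) (Finset.mem_range.mpr (by omega))
  | succ k ih =>
    obtain ⟨N, hN⟩ := ih (by omega)
    refine ⟨N + N, fun e i hi => ?_⟩
    have hFR := FR_sop p f hf d x hxm hx k (by omega) e ((IsLocalRing.maximalIdeal R) ^ N)
      (fun j => ⟨N, Ideal.pow_mem_pow (hf j) N⟩) (hN e)
    rw [II, Ifr_sup, Ifr_singleton, pow_add]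
    exact Ann_step f hFR (hN e i (by omega)) (hN e (i + 1) (by omega))

omit [CharP R p] hp [IsLocalRing R] [IsNoetherianRing R] in
theorem pascal (g : ℕ → ℕ∞) (k : ℕ) :
    ∑ j ∈ Finset.range (k + 1), (k.choose j : ℕ∞) * g j +
      ∑ j ∈ Finset.range (k + 1), (k.choose j : ℕ∞) * g (j + 1) =
    ∑ j ∈ Finset.range (k + 1 + 1), ((k + 1).choose j : ℕ∞) * g j := by
  have h1 : ∑ j ∈ Finset.range (k + 1), (k.choose j : ℕ∞) * g j =
      ∑ j ∈ Finset.range (k + 1), (k.choose (j + 1) : ℕ∞) * g (j + 1) + g 0 := by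
    have h2 : ∑ j ∈ Finset.range (k + 1 + 1), (k.choose j : ℕ∞) * g j =
        ∑ j ∈ Finset.range (k + 1), (k.choose j : ℕ∞) * g j := by
      rw [Finset.sum_range_succ, Nat.choose_succ_self, Nat.cast_zero, zero_mul, add_zero]
    rw [← h2, Finset.sum_range_succ', Nat.choose_zero_right, Nat.cast_one, one_mul]
  rw [h1, Finset.sum_range_succ' _ (k + 1), Nat.choose_zero_right, Nat.cast_one, one_mul,
    add_right_comm, ← Finset.sum_add_distrib]
  congr 1
  refine Finset.sum_congr rfl (fun j _ => ?_)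
  rw [Nat.choose_succ_succ, Nat.cast_add, add_mul, add_comm]

theorem bound {n : ℕ} (f : Fin n → R) (hf : ∀ j, f j ∈ (IsLocalRing.maximalIdeal R)) (d : ℕ) (x : ℕ → R)
    (hxm : ∀ j < d, x j ∈ (IsLocalRing.maximalIdeal R)) (hx : ∀ Q : Ideal R, Q.IsPrime → (∀ j < d, x j ∈ Q) → Q = (IsLocalRing.maximalIdeal R))
    (hfin : ∀ i < d, Module.length R (CechH f i) ≠ ⊤) (k : ℕ) (hk : k ≤ d) (i : ℕ)
    (hi : i + k ≤ d) :
    relLen (Bs f (II R x k) i) (Ks p f (II R x k) i) ≤
      ∑ j ∈ Finset.range (k + 1), (k.choose j : ℕ∞) * Module.length R (nilPart p f (i + j)) := by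
  induction k generalizing i with
  | zero =>
    rw [zero_add, Finset.sum_range_one, Nat.choose_zero_right, Nat.cast_one, one_mul, add_zero]
    exact relLen_le_nil p f i
  | succ k ih =>
    obtain ⟨N, hN⟩ := Ann_all p f hf d x hxm hx hfin k (by omega)
    have hFR : ∀ e, FR f (Ifr p R e (II R x k)) (x k ^ p ^ e) := fun e =>
      FR_sop p f hf d x hxm hx k (by omega) e ((IsLocalRing.maximalIdeal R) ^ N)
        (fun j => ⟨N, Ideal.pow_mem_pow (hf j) N⟩) (hN e)
    have h1 := main_step f hFR (i := i) (𝔞 := (IsLocalRing.maximalIdeal R) ^ N) (fun e => hN e i (by omega))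
      ⟨N, Ideal.pow_mem_pow (hxm k (by omega)) N⟩
    refine h1.trans ?_
    rw [← pascal (fun j => Module.length R (nilPart p f (i + j)))]
    refine add_le_add (ih (by omega) i (by omega)) ?_
    refine (ih (by omega) (i + 1) (by omega)).trans (le_of_eq ?_)
    refine Finset.sum_congr rfl (fun j _ => ?_)
    rw [show i + 1 + j = i + (j + 1) by omega]

/-- the main theorem -/
theorem main {n : ℕ} (f : Fin n → R) (hf : (Ideal.span (Set.range f)).radical = (IsLocalRing.maximalIdeal R)) (d : ℕ)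
    (hfin : ∀ i < d, Module.length R (CechH f i) ≠ ⊤) (x : Fin d → R)
    (hx : (Ideal.span (Set.range x)).radical = (IsLocalRing.maximalIdeal R)) :
    Module.length R (frobClosure p (Ideal.span (Set.range x)) ⧸
        (Ideal.span (Set.range x)).submoduleOf (frobClosure p (Ideal.span (Set.range x)))) ≤
      ∑ i ∈ Finset.range (d + 1), (d.choose i : ℕ∞) * Module.length R (nilPart p f i) := by
  set q := Ideal.span (Set.range x) with hq
  have hfm : ∀ j, f j ∈ (IsLocalRing.maximalIdeal R) := fun j => by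
    rw [← hf]
    exact Ideal.le_radical (Ideal.subset_span ⟨j, rfl⟩)
  let y : ℕ → R := fun k => if h : k < d then x ⟨k, h⟩ else 0
  have hy : ∀ k (h : k < d), y k = x ⟨k, h⟩ := fun k h => dif_pos h
  have hII : II R y d = q := by
    rw [II_eq, hq]
    congr 1
    ext r
    constructor
    · rintro ⟨j, hj, rfl⟩
      exact ⟨⟨j, hj⟩, (hy j hj).symm⟩
    · rintro ⟨j, rfl⟩
      exact ⟨j.1, j.2, hy j.1 j.2⟩
  have hym : ∀ j < d, y j ∈ (IsLocalRing.maximalIdeal R) := fun j hj => by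
    rw [← hx, hy j hj]
    exact Ideal.le_radical (Ideal.subset_span ⟨_, rfl⟩)
  have hyQ : ∀ Q : Ideal R, Q.IsPrime → (∀ j < d, y j ∈ Q) → Q = (IsLocalRing.maximalIdeal R) := by
    intro Q hQ h
    refine le_antisymm (IsLocalRing.le_maximalIdeal hQ.ne_top) ?_
    rw [← hx, hQ.radical_le_iff, hq, Ideal.span_le]
    rintro _ ⟨j, rfl⟩
    have := h j.1 j.2
    rwa [hy j.1 j.2] at this
  have h1 := length_le_relLen p f q (fun j => by
    have := hfm j
    rwa [← hx] at this)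
  refine h1.trans ?_
  have h2 := bound p f hfm d y hym hyQ hfin d le_rfl 0 (by omega)
  rw [hII] at h2
  refine h2.trans (le_of_eq (Finset.sum_congr rfl (fun j _ => ?_)))
  rw [show 0 + j = j from Nat.zero_add j]

end fin

end Pool.Agent.R688.FC
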